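import Pool.Agent.R244.LZ.Stm

/-!
LZ-1: first and second moments of random cascades
(piece of the project of helper244 on MP_8f79a4_an).
-/

set_option autoImplicit false

open Finset

namespace Pool.Agent.R793.LZ
open Pool.Agent.R244.LZ

/-! ### words -/

theorem mem_words : ∀ (k : ℕ) (w : List Bool), w ∈ words k ↔ w.length = k
  | 0, w => by simp [words, List.length_eq_zero_iff]
  | k + 1, [] => by simp [words]
  | k + 1, b :: w => by
    have ih := mem_words k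
    simp only [words, Finset.mem_union, Finset.mem_image, List.length_cons]
    constructor
    · rintro (⟨v, hv, h⟩ | ⟨v, hv, h⟩)
      · obtain ⟨-, rfl⟩ := List.cons.inj h
        rw [ih] at hv; omega
      · obtain ⟨-, rfl⟩ := List.cons.inj h
        rw [ih] at hv; omega
    · intro h
      have hw : w ∈ words k := (ih w).2 (by omega)
      cases b
      · exact Or.inl ⟨w, hw, rfl⟩
      · exact Or.inr ⟨w, hw, rfl⟩

theorem words_sub_VV {k N : ℕ} (h : k < N) : words k ⊆ VV N := by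
  intro w hw
  unfold VV
  rw [Finset.mem_biUnion]
  exact ⟨k, Finset.mem_range.mpr h, hw⟩

theorem sum_words_succ {M : Type*} [AddCommMonoid M] (k : ℕ) (f : List Bool → M) :
    ∑ w ∈ words (k + 1), f w = ∑ w ∈ words k, (f (false :: w) + f (true :: w)) := by
  rw [words, Finset.sum_union, Finset.sum_image, Finset.sum_image, Finset.sum_add_distrib]
  · intro x _ y _ h; exact (List.cons.inj h).2
  · intro x _ y _ h; exact (List.cons.inj h).2
  · rw [Finset.disjoint_left]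
    intro w h1 h2
    rw [Finset.mem_image] at h1 h2
    obtain ⟨v, _, rfl⟩ := h1
    obtain ⟨v', _, h⟩ := h2
    exact absurd (List.cons.inj h).1 (by decide)

/-! ### flips -/

theorem sum_flip {M : Type*} [AddCommMonoid M] {V U : Finset (List Bool)} (hU : U ⊆ V)
    (G : Finset (List Bool) → M) :
    ∑ ω ∈ V.powerset, G (symmDiff ω U) = ∑ ω ∈ V.powerset, G ω := by
  have hmem : ∀ ω ∈ V.powerset, symmDiff ω U ∈ V.powerset := by
    intro ω h
    rw [Finset.mem_powerset] at h ⊢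
    intro w hw
    rw [Finset.mem_symmDiff] at hw
    rcases hw with hw | hw
    · exact h hw.1
    · exact hU hw.1
  refine Finset.sum_nbij' (fun ω => symmDiff ω U) (fun ω => symmDiff ω U) hmem hmem ?_ ?_ ?_
  · intro ω _; exact symmDiff_symmDiff_cancel_right U ω
  · intro ω _; exact symmDiff_symmDiff_cancel_right U ω
  · intro ω _; rfl

theorem mean_flip {N : ℕ} {U : Finset (List Bool)} (hU : U ⊆ VV N)
    (G : Finset (List Bool) → ℝ) : mean N (fun ω => G (symmDiff ω U)) = mean N G := by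
  unfold mean
  rw [sum_flip hU G]

theorem mean_mono {N : ℕ} {G H : Finset (List Bool) → ℝ} (h : ∀ ω, G ω ≤ H ω) :
    mean N G ≤ mean N H := by
  unfold mean
  exact mul_le_mul_of_nonneg_left (Finset.sum_le_sum fun ω _ => h ω) (by positivity)

theorem mean_add {N : ℕ} (G H : Finset (List Bool) → ℝ) :
    mean N (fun ω => G ω + H ω) = mean N G + mean N H := by
  unfold mean
  rw [Finset.sum_add_distrib, mul_add]

theorem mean_mul {N : ℕ} (a : ℝ) (G : Finset (List Bool) → ℝ) :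
    mean N (fun ω => a * G ω) = a * mean N G := by
  unfold mean
  rw [← Finset.mul_sum]
  ring

theorem mean_const {N : ℕ} (a : ℝ) : mean N (fun _ => a) = a := by
  unfold mean
  rw [Finset.sum_const, Finset.card_powerset, nsmul_eq_mul]
  have : ((2 : ℝ) ^ (VV N).card) ≠ 0 := by positivity
  push_cast
  field_simp

theorem mean_avg {N : ℕ} {W : Finset (List Bool)} (hW : W ⊆ VV N)
    (G : Finset (List Bool) → ℝ) :
    mean N (fun ω => ∑ η ∈ W.powerset, G (symmDiff ω η)) = 2 ^ W.card * mean N G := by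
  unfold mean
  rw [Finset.sum_comm]
  have : ∀ η ∈ W.powerset, ∑ ω ∈ (VV N).powerset, G (symmDiff ω η) =
      ∑ ω ∈ (VV N).powerset, G ω := by
    intro η hη
    exact sum_flip ((Finset.mem_powerset.mp hη).trans hW) G
  rw [Finset.sum_congr rfl this, Finset.sum_const, Finset.card_powerset, nsmul_eq_mul]
  push_cast
  ring

theorem sg_symmDiff (ω U : Finset (List Bool)) (w : List Bool) :
    sg (symmDiff ω U) w = (if w ∈ U then -1 else 1) * sg ω w := by
  unfold sg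
  by_cases h1 : w ∈ ω <;> by_cases h2 : w ∈ U <;> simp [Finset.mem_symmDiff, h1, h2]

theorem norm_sg (ω : Finset (List Bool)) (w : List Bool) : ‖sg ω w‖ = 1 := by
  unfold sg
  split_ifs <;> simp

theorem F_congr (c : ℕ → ℂ) (ω ω' : Finset (List Bool)) : ∀ w : List Bool,
    (∀ v : List Bool, v.length < w.length → (v ∈ ω ↔ v ∈ ω')) → F c ω w = F c ω' w
  | [], _ => rfl
  | b :: w, h => by
    have h1 := F_congr c ω ω' w (fun v hv => h v (by
      rw [List.length_cons]; omega))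
    have h2 : sg ω w = sg ω' w := by
      unfold sg
      have := h w (by rw [List.length_cons]; omega)
      by_cases hw : w ∈ ω
      · rw [if_pos hw, if_pos (this.mp hw)]
      · rw [if_neg hw, if_neg (fun h' => hw (this.mpr h'))]
    simp only [F, h1, h2]

theorem F_flip (c : ℕ → ℂ) (ω : Finset (List Bool)) {k : ℕ} {η : Finset (List Bool)}
    (hη : ∀ v ∈ η, k ≤ v.length) {w : List Bool} (hw : w.length ≤ k) :
    F c (symmDiff ω η) w = F c ω w := by
  refine F_congr c _ _ w fun v hv => ?_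
  have hvη : v ∉ η := fun h => by have := hη v h; omega
  rw [Finset.mem_symmDiff]
  constructor
  · rintro (h | h)
    · exact h.1
    · exact absurd h.1 hvη
  · intro h
    exact Or.inl ⟨h, hvη⟩

theorem norm_Z (z : ℕ → ℂ) (hz : ∀ i, ‖z i‖ = 1) : ∀ w : List Bool, ‖Z z w‖ = 1
  | [] => by simp [Z]
  | b :: w => by
    have := norm_Z z hz w
    cases b
    · simp [Z, this]
    · simp [Z, this, hz]

theorem par (x y : ℂ) : ‖x + y‖ ^ 2 + ‖x - y‖ ^ 2 = 2 * (‖x‖ ^ 2 + ‖y‖ ^ 2) := by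
  have := parallelogram_law_with_norm ℝ x y
  linarith [this, sq (‖x + y‖), sq (‖x - y‖), sq ‖x‖, sq ‖y‖]

theorem sumF (c : ℕ → ℂ) (ω : Finset (List Bool)) :
    ∀ k : ℕ, ∑ w ∈ words k, ‖F c ω w‖ ^ 2 = 2 ^ k * PP c k
  | 0 => by simp [words, F, PP]
  | k + 1 => by
    rw [sum_words_succ]
    have h : ∀ w ∈ words k, ‖F c ω (false :: w)‖ ^ 2 + ‖F c ω (true :: w)‖ ^ 2 =
        2 * (1 + ‖c k‖ ^ 2) * ‖F c ω w‖ ^ 2 := by
      intro w hw
      have hl : w.length = k := (mem_words k w).mp hw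
      have h1 : F c ω (false :: w) = F c ω w * (1 + sg ω w * c k) := by
        simp [F, hl]
      have h2 : F c ω (true :: w) = F c ω w * (1 - sg ω w * c k) := by
        simp [F, hl, sub_eq_add_neg]
      rw [h1, h2, norm_mul, norm_mul, mul_pow, mul_pow, ← mul_add, par, norm_mul, norm_sg, norm_one]
      ring
    rw [Finset.sum_congr rfl h, ← Finset.mul_sum, sumF c ω k, PP, PP, Finset.prod_range_succ]
    ring

/-! ### the Khinchine inequality -/

section khinchine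

variable {α : Type} [DecidableEq α]

/-- Signed sum: the sign of `w` is `-1` when `w ∈ η`. -/
noncomputable def R (W : Finset α) (a : α → ℂ) (η : Finset α) : ℂ :=
  ∑ w ∈ W, (if w ∈ η then -1 else 1) * a w

theorem R_insert1 {W : Finset α} {x : α} (hx : x ∉ W) (a : α → ℂ) {η : Finset α} (hη : η ⊆ W) :
    R (insert x W) a η = R W a η + a x := by
  unfold R
  rw [Finset.sum_insert hx, if_neg (fun h => hx (hη h)), one_mul, add_comm]

theorem R_insert2 {W : Finset α} {x : α} (hx : x ∉ W) (a : α → ℂ) {η : Finset α} :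
    R (insert x W) a (insert x η) = R W a η - a x := by
  unfold R
  rw [Finset.sum_insert hx, if_pos (Finset.mem_insert_self x η)]
  have : ∀ w ∈ W, (if w ∈ insert x η then (-1 : ℂ) else 1) * a w =
      (if w ∈ η then -1 else 1) * a w := by
    intro w hw
    have hwx : w ≠ x := fun h => hx (h ▸ hw)
    by_cases h : w ∈ η
    · rw [if_pos h, if_pos (Finset.mem_insert_of_mem h)]
    · rw [if_neg h, if_neg (fun h' => h ((Finset.mem_insert.mp h').resolve_left hwx))]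
  rw [Finset.sum_congr rfl this]
  ring

theorem A2 (a : α → ℂ) (W : Finset α) :
    ∑ η ∈ W.powerset, ‖R W a η‖ ^ 2 = 2 ^ W.card * ∑ w ∈ W, ‖a w‖ ^ 2 := by
  induction W using Finset.induction_on with
  | empty => simp [R]
  | insert x W hx ih =>
    rw [Finset.sum_powerset_insert hx, ← Finset.sum_add_distrib]
    have : ∀ η ∈ W.powerset, ‖R (insert x W) a η‖ ^ 2 + ‖R (insert x W) a (insert x η)‖ ^ 2 =
        2 * ‖R W a η‖ ^ 2 + 2 * ‖a x‖ ^ 2 := by
      intro η hη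
      rw [R_insert1 hx a (Finset.mem_powerset.mp hη), R_insert2 hx a, par]
      ring
    rw [Finset.sum_congr rfl this, Finset.sum_add_distrib, ← Finset.mul_sum, ih,
      Finset.sum_const, Finset.card_powerset, nsmul_eq_mul, Finset.card_insert_of_notMem hx,
      Finset.sum_insert hx]
    push_cast
    ring

theorem four (r b : ℂ) : ‖r + b‖ ^ 4 + ‖r - b‖ ^ 4 ≤
    2 * (‖r‖ ^ 4 + 6 * ‖r‖ ^ 2 * ‖b‖ ^ 2 + ‖b‖ ^ 4) := by
  have h0 := par r b
  have h1 : ‖r + b‖ ≤ ‖r‖ + ‖b‖ := norm_add_le r b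
  have h2 : ‖r - b‖ ≤ ‖r‖ + ‖b‖ := norm_sub_le r b
  have h3 : ‖r + b‖ ^ 2 ≤ (‖r‖ + ‖b‖) ^ 2 := pow_le_pow_left₀ (norm_nonneg _) h1 2
  have h4 : ‖r - b‖ ^ 2 ≤ (‖r‖ + ‖b‖) ^ 2 := pow_le_pow_left₀ (norm_nonneg _) h2 2
  set P := ‖r + b‖ ^ 2 with hP
  set Q := ‖r - b‖ ^ 2 with hQ
  have e1 : ‖r + b‖ ^ 4 = P ^ 2 := by rw [hP]; ring
  have e2 : ‖r - b‖ ^ 4 = Q ^ 2 := by rw [hQ]; ring
  rw [e1, e2]
  -- `|P - Q| ≤ 4 ‖r‖ ‖b‖`
  have h5 : P - Q ≤ 4 * (‖r‖ * ‖b‖) := by nlinarith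
  have h6 : Q - P ≤ 4 * (‖r‖ * ‖b‖) := by nlinarith
  have h7 : (P - Q) ^ 2 ≤ (4 * (‖r‖ * ‖b‖)) ^ 2 := sq_le_sq' (by linarith) h5
  have h8 : P ^ 2 + Q ^ 2 = ((P + Q) ^ 2 + (P - Q) ^ 2) / 2 := by ring
  rw [h8, h0]
  nlinarith [h7]

theorem A4 (a : α → ℂ) (W : Finset α) :
    ∑ η ∈ W.powerset, ‖R W a η‖ ^ 4 ≤ 2 ^ W.card * (3 * (∑ w ∈ W, ‖a w‖ ^ 2) ^ 2) := by
  induction W using Finset.induction_on with
  | empty => simp [R]
  | insert x W hx ih =>
    rw [Finset.sum_powerset_insert hx, ← Finset.sum_add_distrib]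
    have h1 : ∀ η ∈ W.powerset, ‖R (insert x W) a η‖ ^ 4 + ‖R (insert x W) a (insert x η)‖ ^ 4 ≤
        2 * ‖R W a η‖ ^ 4 + (12 * ‖a x‖ ^ 2) * ‖R W a η‖ ^ 2 + 2 * ‖a x‖ ^ 4 := by
      intro η hη
      rw [R_insert1 hx a (Finset.mem_powerset.mp hη), R_insert2 hx a]
      have := four (R W a η) (a x)
      linarith
    refine (Finset.sum_le_sum h1).trans ?_
    rw [Finset.sum_add_distrib, Finset.sum_add_distrib, ← Finset.mul_sum, ← Finset.mul_sum, A2,
      Finset.sum_const, Finset.card_powerset, nsmul_eq_mul, Finset.card_insert_of_notMem hx,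
      Finset.sum_insert hx]
    push_cast
    set s := ∑ w ∈ W, ‖a w‖ ^ 2 with hs
    have hn : (0 : ℝ) < 2 ^ W.card := by positivity
    have e : (2 : ℝ) ^ (W.card + 1) * (3 * (‖a x‖ ^ 2 + s) ^ 2) =
        2 * (2 ^ W.card * (3 * s ^ 2)) + 12 * ‖a x‖ ^ 2 * (2 ^ W.card * s) +
          2 ^ W.card * (6 * ‖a x‖ ^ 4) := by ring
    rw [e]
    have h2 : (2 : ℝ) ^ W.card * (2 * ‖a x‖ ^ 4) ≤ 2 ^ W.card * (6 * ‖a x‖ ^ 4) := by
      apply mul_le_mul_of_nonneg_left _ hn.le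
      have : 0 ≤ ‖a x‖ ^ 4 := by positivity
      linarith
    linarith

theorem A1 (a : α → ℂ) (W : Finset α) :
    2 ^ W.card * ((√3)⁻¹ * √(∑ w ∈ W, ‖a w‖ ^ 2)) ≤ ∑ η ∈ W.powerset, ‖R W a η‖ := by
  set s := ∑ w ∈ W, ‖a w‖ ^ 2 with hs
  have hs0 : 0 ≤ s := Finset.sum_nonneg fun w _ => by positivity
  rcases hs0.eq_or_lt with h0 | hpos
  · rw [← h0, Real.sqrt_zero, mul_zero, mul_zero]
    exact Finset.sum_nonneg fun η _ => norm_nonneg _
  set l := √3 * √s with hl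
  have h3 : √3 * √3 = (3 : ℝ) := Real.mul_self_sqrt (by norm_num)
  have hss : √s * √s = s := Real.mul_self_sqrt hs0
  have h3p : 0 < √3 := Real.sqrt_pos.mpr (by norm_num)
  have hsp : 0 < √s := Real.sqrt_pos.mpr hpos
  have hlp : 0 < l := mul_pos h3p hsp
  have hl2 : l ^ 2 = 3 * s := by
    rw [hl]; calc (√3 * √s) ^ 2 = (√3 * √3) * (√s * √s) := by ring
      _ = 3 * s := by rw [h3, hss]
  have key : ∀ η ∈ W.powerset, 3 * l ^ 2 * ‖R W a η‖ ^ 2 - ‖R W a η‖ ^ 4 ≤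
      2 * l ^ 3 * ‖R W a η‖ := by
    intro η _
    have hu : 0 ≤ ‖R W a η‖ := norm_nonneg _
    have : 0 ≤ ‖R W a η‖ * ((‖R W a η‖ - l) ^ 2 * (‖R W a η‖ + 2 * l)) := by positivity
    nlinarith [this]
  have h1 := Finset.sum_le_sum key
  rw [Finset.sum_sub_distrib, ← Finset.mul_sum, ← Finset.mul_sum, A2, ← hs] at h1
  have h2 := A4 a W
  rw [← hs] at h2
  have h4 : (2 : ℝ) ^ W.card * (3 * s ^ 2) = l ^ 2 * (2 ^ W.card * s) := by
    rw [hl2]; ring
  have h5 : 2 * l ^ 2 * (2 ^ W.card * s) ≤ 2 * l ^ 2 * (l * ∑ η ∈ W.powerset, ‖R W a η‖) := by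
    have : 2 * l ^ 3 * ∑ η ∈ W.powerset, ‖R W a η‖ =
        2 * l ^ 2 * (l * ∑ η ∈ W.powerset, ‖R W a η‖) := by ring
    rw [← this]
    linarith
  have h6 : 2 ^ W.card * s ≤ l * ∑ η ∈ W.powerset, ‖R W a η‖ :=
    le_of_mul_le_mul_left h5 (by positivity)
  have h7 : l * (2 ^ W.card * ((√3)⁻¹ * √s)) = 2 ^ W.card * s := by
    rw [hl]
    calc √3 * √s * (2 ^ W.card * ((√3)⁻¹ * √s)) =
        (√3 * (√3)⁻¹) * (2 ^ W.card * (√s * √s)) := by ring
      _ = 2 ^ W.card * s := by rw [mul_inv_cancel₀ h3p.ne', hss, one_mul]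
  rw [← h7] at h6
  exact le_of_mul_le_mul_left h6 hlp

end khinchine

/-! ### the martingale -/

/-- `Σ_k`. -/
noncomputable def Sg (c z : ℕ → ℂ) (k : ℕ) (ω : Finset (List Bool)) : ℂ :=
  ∑ w ∈ words k, sg ω w * F c ω w * Z z w

/-- `T_k`. -/
noncomputable def T (c z : ℕ → ℂ) (k : ℕ) (ω : Finset (List Bool)) : ℂ :=
  ∑ w ∈ words k, F c ω w * Z z w

/-- `M_k`. -/
noncomputable def Mk (c z : ℕ → ℂ) (N k : ℕ) (ω : Finset (List Bool)) : ℂ :=
  (1 / 2 : ℂ) ^ k * T c z k ω * ∏ i ∈ Finset.Ico k N, ((1 + z i) / 2)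

/-- `D_k`. -/
noncomputable def Dk (c z : ℕ → ℂ) (N k : ℕ) (ω : Finset (List Bool)) : ℂ :=
  (1 / 2 : ℂ) ^ (k + 1) * (c k * (1 - z k)) * (∏ i ∈ Finset.Ico (k + 1) N, ((1 + z i) / 2)) *
    Sg c z k ω

theorem T_succ (c z : ℕ → ℂ) (k : ℕ) (ω : Finset (List Bool)) :
    T c z (k + 1) ω = (1 + z k) * T c z k ω + c k * (1 - z k) * Sg c z k ω := by
  unfold T Sg
  rw [sum_words_succ, Finset.mul_sum, Finset.mul_sum, ← Finset.sum_add_distrib]
  refine Finset.sum_congr rfl fun w hw => ?_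
  have hl : w.length = k := (mem_words k w).mp hw
  simp only [F, Z, hl]
  simp
  ring

theorem Mk_succ (c z : ℕ → ℂ) {N k : ℕ} (hk : k < N) (ω : Finset (List Bool)) :
    Mk c z N (k + 1) ω = Mk c z N k ω + Dk c z N k ω := by
  unfold Mk Dk
  rw [T_succ, Finset.prod_eq_prod_Ico_succ_bot hk]
  ring

theorem Mk_N (c z : ℕ → ℂ) (N : ℕ) (ω : Finset (List Bool)) : Mk c z N N ω = S c z N ω := by
  unfold Mk S T
  simp

theorem Mk_zero (c z : ℕ → ℂ) (N : ℕ) (ω : Finset (List Bool)) :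
    ‖Mk c z N 0 ω‖ = ∏ i ∈ Finset.range N, (‖1 + z i‖ / 2) := by
  unfold Mk T
  rw [Finset.range_eq_Ico]
  simp [words, F, Z]

theorem words_len {k : ℕ} : ∀ v ∈ words k, k ≤ v.length := fun v hv =>
  ((mem_words k v).mp hv).ge

theorem T_flip (c z : ℕ → ℂ) {j k : ℕ} (hj : j ≤ k) (ω : Finset (List Bool))
    {η : Finset (List Bool)} (hη : ∀ v ∈ η, k ≤ v.length) :
    T c z j (symmDiff ω η) = T c z j ω := by
  unfold T
  refine Finset.sum_congr rfl fun w hw => ?_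
  rw [F_flip c ω hη (by rw [(mem_words j w).mp hw]; exact hj)]

theorem Mk_flip (c z : ℕ → ℂ) (N : ℕ) {j k : ℕ} (hj : j ≤ k) (ω : Finset (List Bool)) :
    Mk c z N j (symmDiff ω (words k)) = Mk c z N j ω := by
  unfold Mk
  rw [T_flip c z hj ω words_len]

/-- Coefficients of `Σ_k`. -/
noncomputable def co (c z : ℕ → ℂ) (ω : Finset (List Bool)) (w : List Bool) : ℂ :=
  sg ω w * F c ω w * Z z w

theorem Sg_flip (c z : ℕ → ℂ) {k : ℕ} (ω : Finset (List Bool)) {η : Finset (List Bool)}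
    (hη : η ⊆ words k) : Sg c z k (symmDiff ω η) = R (words k) (co c z ω) η := by
  unfold Sg R co
  refine Finset.sum_congr rfl fun w hw => ?_
  rw [sg_symmDiff, F_flip c ω (k := k) (fun v hv => words_len v (hη hv))
    (by rw [(mem_words k w).mp hw])]
  ring

theorem Sg_neg (c z : ℕ → ℂ) {k : ℕ} (ω : Finset (List Bool)) :
    Sg c z k (symmDiff ω (words k)) = - Sg c z k ω := by
  rw [Sg_flip c z ω (Finset.Subset.refl _)]
  unfold R Sg co
  rw [← Finset.sum_neg_distrib]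
  refine Finset.sum_congr rfl fun w hw => ?_
  rw [if_pos hw]
  ring

theorem Dk_neg (c z : ℕ → ℂ) (N : ℕ) {k : ℕ} (ω : Finset (List Bool)) :
    Dk c z N k (symmDiff ω (words k)) = - Dk c z N k ω := by
  unfold Dk
  rw [Sg_neg]
  ring

theorem norm_Dk (c z : ℕ → ℂ) (N k : ℕ) (ω : Finset (List Bool)) :
    ‖Dk c z N k ω‖ = ‖c k‖ * bb z N k * ‖Sg c z k ω‖ := by
  unfold Dk bb
  rw [norm_mul, norm_mul, norm_mul, norm_mul, norm_pow, norm_prod]
  have h1 : ‖(1 / 2 : ℂ)‖ = 1 / 2 := by simp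
  have h2 : ∀ i ∈ Finset.Ico (k + 1) N, ‖(1 + z i) / 2‖ = ‖1 + z i‖ / 2 := by
    intro i _
    rw [norm_div]; simp
  rw [h1, Finset.prod_congr rfl h2]
  ring

theorem sum_co (c z : ℕ → ℂ) (hz : ∀ i, ‖z i‖ = 1) (ω : Finset (List Bool)) (k : ℕ) :
    ∑ w ∈ words k, ‖co c z ω w‖ ^ 2 = 2 ^ k * PP c k := by
  rw [← sumF c ω k]
  refine Finset.sum_congr rfl fun w _ => ?_
  unfold co
  rw [norm_mul, norm_mul, norm_sg, norm_Z z hz, one_mul, mul_one]

theorem mean_Sg_sq (c z : ℕ → ℂ) (hz : ∀ i, ‖z i‖ = 1) {N k : ℕ} (hk : k < N) :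
    mean N (fun ω => ‖Sg c z k ω‖ ^ 2) = 2 ^ k * PP c k := by
  have h := mean_avg (words_sub_VV hk) (fun ω => ‖Sg c z k ω‖ ^ 2)
  have h1 : (fun ω : Finset (List Bool) => ∑ η ∈ (words k).powerset,
      ‖Sg c z k (symmDiff ω η)‖ ^ 2) = fun _ => 2 ^ (words k).card * (2 ^ k * PP c k) := by
    funext ω
    rw [← sum_co c z hz ω k, ← A2]
    refine Finset.sum_congr rfl fun η hη => ?_
    rw [Sg_flip c z ω (Finset.mem_powerset.mp hη)]
  rw [h1, mean_const] at h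
  exact (mul_left_cancel₀ (by positivity) h).symm

theorem mean_Sg (c z : ℕ → ℂ) (hz : ∀ i, ‖z i‖ = 1) {N k : ℕ} (hk : k < N) :
    (√3)⁻¹ * √(2 ^ k * PP c k) ≤ mean N (fun ω => ‖Sg c z k ω‖) := by
  have h := mean_avg (words_sub_VV hk) (fun ω => ‖Sg c z k ω‖)
  have h1 : mean N (fun _ => 2 ^ (words k).card * ((√3)⁻¹ * √(2 ^ k * PP c k))) ≤
      mean N (fun ω : Finset (List Bool) => ∑ η ∈ (words k).powerset,
        ‖Sg c z k (symmDiff ω η)‖) := by
    refine mean_mono fun ω => ?_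
    rw [← sum_co c z hz ω k]
    refine (A1 (co c z ω) (words k)).trans (le_of_eq ?_)
    refine Finset.sum_congr rfl fun η hη => ?_
    rw [Sg_flip c z ω (Finset.mem_powerset.mp hη)]
  rw [h, mean_const] at h1
  exact le_of_mul_le_mul_left h1 (by positivity)

theorem mean_Mk_sq (c z : ℕ → ℂ) (hz : ∀ i, ‖z i‖ = 1) {N k : ℕ} (hk : k < N) :
    mean N (fun ω => ‖Mk c z N (k + 1) ω‖ ^ 2) = mean N (fun ω => ‖Mk c z N k ω‖ ^ 2) +
      ‖c k‖ ^ 2 * bb z N k ^ 2 * (2 ^ k * PP c k) := by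
  have h1 : (fun ω : Finset (List Bool) => ‖Mk c z N (k + 1) ω‖ ^ 2) =
      fun ω => ‖Mk c z N k ω + Dk c z N k ω‖ ^ 2 := by
    funext ω; rw [Mk_succ c z hk]
  have h2 := mean_flip (words_sub_VV hk) (fun ω => ‖Mk c z N k ω + Dk c z N k ω‖ ^ 2)
  have h3 : (fun ω : Finset (List Bool) => ‖Mk c z N k (symmDiff ω (words k)) +
      Dk c z N k (symmDiff ω (words k))‖ ^ 2) = fun ω => ‖Mk c z N k ω - Dk c z N k ω‖ ^ 2 := by
    funext ω
    rw [Mk_flip c z N le_rfl, Dk_neg, sub_eq_add_neg]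
  rw [h3] at h2
  have h4 := mean_add (N := N) (fun ω => ‖Mk c z N k ω + Dk c z N k ω‖ ^ 2)
    (fun ω => ‖Mk c z N k ω - Dk c z N k ω‖ ^ 2)
  have h5 : (fun ω : Finset (List Bool) => ‖Mk c z N k ω + Dk c z N k ω‖ ^ 2 +
      ‖Mk c z N k ω - Dk c z N k ω‖ ^ 2) = fun ω => 2 * (‖Mk c z N k ω‖ ^ 2 +
        (‖c k‖ * bb z N k) ^ 2 * ‖Sg c z k ω‖ ^ 2) := by
    funext ω
    rw [par, norm_Dk, mul_pow]
  rw [h5, mean_mul, mean_add, mean_mul, mean_Sg_sq c z hz hk] at h4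
  rw [h1]
  have h6 : ‖c k‖ ^ 2 * bb z N k ^ 2 = (‖c k‖ * bb z N k) ^ 2 := by ring
  rw [h6]
  linarith

theorem mean_Mk_mono (c z : ℕ → ℂ) {N k : ℕ} (hk : k < N) :
    mean N (fun ω => ‖Mk c z N k ω‖) ≤ mean N (fun ω => ‖Mk c z N (k + 1) ω‖) ∧
    mean N (fun ω => ‖Dk c z N k ω‖) ≤ mean N (fun ω => ‖Mk c z N (k + 1) ω‖) := by
  have h2 := mean_flip (words_sub_VV hk) (fun ω => ‖Mk c z N (k + 1) ω‖)
  have hs : ∀ ω, Mk c z N (k + 1) ω = Mk c z N k ω + Dk c z N k ω := Mk_succ c z hk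
  have hf : ∀ ω, Mk c z N (k + 1) (symmDiff ω (words k)) = Mk c z N k ω - Dk c z N k ω := by
    intro ω
    rw [hs, Mk_flip c z N le_rfl, Dk_neg, sub_eq_add_neg]
  have h3 : mean N (fun ω => (1 / 2 : ℝ) * (‖Mk c z N (k + 1) ω‖ +
      ‖Mk c z N (k + 1) (symmDiff ω (words k))‖)) = mean N (fun ω => ‖Mk c z N (k + 1) ω‖) := by
    rw [mean_mul, mean_add (fun ω => ‖Mk c z N (k + 1) ω‖)
      (fun ω => ‖Mk c z N (k + 1) (symmDiff ω (words k))‖), h2]
    ring
  rw [← h3]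
  constructor
  · refine mean_mono fun ω => ?_
    rw [hf, hs]
    have h4 := norm_add_le (Mk c z N k ω + Dk c z N k ω) (Mk c z N k ω - Dk c z N k ω)
    have h5 : Mk c z N k ω + Dk c z N k ω + (Mk c z N k ω - Dk c z N k ω) =
        2 * Mk c z N k ω := by ring
    rw [h5, norm_mul] at h4
    have h6 : ‖(2 : ℂ)‖ = 2 := by simp
    rw [h6] at h4
    linarith
  · refine mean_mono fun ω => ?_
    rw [hf, hs]
    have h4 := norm_sub_le (Mk c z N k ω + Dk c z N k ω) (Mk c z N k ω - Dk c z N k ω)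
    have h5 : Mk c z N k ω + Dk c z N k ω - (Mk c z N k ω - Dk c z N k ω) =
        2 * Dk c z N k ω := by ring
    rw [h5, norm_mul] at h4
    have h6 : ‖(2 : ℂ)‖ = 2 := by simp
    rw [h6] at h4
    linarith

theorem mean_Mk_le (c z : ℕ → ℂ) {N : ℕ} (j : ℕ) : ∀ k, k + j = N →
    mean N (fun ω => ‖Mk c z N k ω‖) ≤ mean N (fun ω => ‖S c z N ω‖) := by
  induction j with
  | zero =>
    intro k hk
    rw [add_zero] at hk
    subst hk
    simp only [Mk_N]
    exact le_rfl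
  | succ j ih =>
    intro k hk
    exact (mean_Mk_mono c z (by omega : k < N)).1.trans (ih (k + 1) (by omega))

theorem stm1 : Stm1 := by
  intro c z N hz
  constructor
  · intro k hk
    have h1 := mean_Sg c z hz hk
    have h2 := (mean_Mk_mono c z hk).2
    have h3 := mean_Mk_le c z (N := N) (N - (k + 1)) (k + 1) (by omega)
    have h4 : mean N (fun ω => ‖Dk c z N k ω‖) = ‖c k‖ * bb z N k *
        mean N (fun ω => ‖Sg c z k ω‖) := by
      simp only [norm_Dk]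
      rw [mean_mul]
    have h5 : 0 ≤ ‖c k‖ * bb z N k := by
      unfold bb
      have : 0 ≤ ∏ i ∈ Finset.Ico (k + 1) N, (‖1 + z i‖ / 2) :=
        Finset.prod_nonneg fun i _ => by positivity
      positivity
    calc (√3)⁻¹ * (‖c k‖ * bb z N k * √(2 ^ k * PP c k)) =
        ‖c k‖ * bb z N k * ((√3)⁻¹ * √(2 ^ k * PP c k)) := by ring
      _ ≤ ‖c k‖ * bb z N k * mean N (fun ω => ‖Sg c z k ω‖) := mul_le_mul_of_nonneg_left h1 h5
      _ = mean N (fun ω => ‖Dk c z N k ω‖) := h4.symm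
      _ ≤ mean N (fun ω => ‖Mk c z N (k + 1) ω‖) := h2
      _ ≤ mean N (fun ω => ‖S c z N ω‖) := h3
  · have h : ∀ k, k ≤ N → mean N (fun ω => ‖Mk c z N k ω‖ ^ 2) =
        (∏ i ∈ Finset.range N, (‖1 + z i‖ / 2)) ^ 2 +
          ∑ j ∈ Finset.range k, ‖c j‖ ^ 2 * bb z N j ^ 2 * (2 ^ j * PP c j) := by
      intro k
      induction k with
      | zero =>
        intro _
        simp only [Mk_zero, Finset.range_zero, Finset.sum_empty, add_zero]
        exact mean_const _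
      | succ k ih =>
        intro hk
        rw [mean_Mk_sq c z hz (by omega : k < N), ih (by omega), Finset.sum_range_succ]
        ring
    have := h N le_rfl
    simp only [Mk_N] at this
    exact this

end Pool.Agent.R793.LZ
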